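import Pool.Agent.H927.QP.St

/-!
# `PΣ_4`: relations between the group elements (helper357 for helper927)
-/

set_option autoImplicit false

open scoped TensorProduct commutatorElement

noncomputable section

namespace Pool.Agent.H927.QP.Part_theta

open Pool.Agent.H297.QL (Gr gam cl gbr comp hc LV inc lift)

attribute [local instance 100] LieRing.ofAssociativeRing

theorem theta_apply (k l : Fin 3) (u : (FA K)ˣ) (m : M K) (j : Fin 2) :
    theta k l u m j = alpha k u (m j) +
      bco k j • ((aco k l 0 • alpha k u (m 0) + aco k l 1 • alpha k u (m 1)) *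
        ((u : FA K) - 1)) := rfl

theorem alpha_x_ne {k c : Fin 3} (h : c ≠ k) (u : (FA K)ˣ) : alpha k u (x K c) = x K c := by
  unfold alpha
  rw [liftA_x, if_neg h]

theorem alpha_x_same (k : Fin 3) (u : (FA K)ˣ) :
    alpha k u (x K k) = (u : FA K) * x K k * ((u⁻¹ : (FA K)ˣ) : FA K) := by
  unfold alpha
  rw [liftA_x, if_pos rfl]

theorem alpha_y {k l : Fin 3} (h : l ≠ k) (u : (FA K)ˣ) :
    alpha k u ((y l : (FA K)ˣ) : FA K) = ((y l : (FA K)ˣ) : FA K) := by
  change alpha k u (1 + 2 * x K l) = 1 + 2 * x K l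
  rw [map_add, map_mul, map_one, map_ofNat, alpha_x_ne h]

theorem alpha_yi {k l : Fin 3} (h : l ≠ k) (u : (FA K)ˣ) :
    alpha k u (((y l)⁻¹ : (FA K)ˣ) : FA K) = (((y l)⁻¹ : (FA K)ˣ) : FA K) := by
  change alpha k u (yi l) = yi l
  unfold yi
  rw [map_sum]
  refine Finset.sum_congr rfl fun n _ => ?_
  rw [map_pow, map_neg, map_mul, map_ofNat, alpha_x_ne h]

theorem y_comm_x (l : Fin 3) : ((y l : (FA K)ˣ) : FA K) * x K l = x K l * ((y l : (FA K)ˣ) : FA K) := by
  change (1 + 2 * x K l) * x K l = x K l * (1 + 2 * x K l)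
  rw [add_mul, mul_add, one_mul, mul_one]
  congr 1
  rw [two_mul, add_mul, mul_add]

theorem conj_x (l : Fin 3) :
    ((y l : (FA K)ˣ) : FA K) * x K l * (((y l)⁻¹ : (FA K)ˣ) : FA K) = x K l := by
  rw [y_comm_x, mul_assoc, Units.mul_inv, mul_one]

/-- composition of two conjugations of the same generator -/
theorem alpha_comp {k : Fin 3} {u v : (FA K)ˣ} (h : alpha k u (v : FA K) = v)
    (h' : alpha k u ((v⁻¹ : (FA K)ˣ) : FA K) = ((v⁻¹ : (FA K)ˣ) : FA K)) (a : FA K) :
    alpha k u (alpha k v a) = alpha k (v * u) a := by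
  have h1 : (alpha k u).comp (alpha k v) = alpha k (v * u) := by
    apply hom_extA
    intro c
    rw [AlgHom.comp_apply]
    by_cases hc : c = k
    · subst hc
      rw [alpha_x_same, map_mul, map_mul, h, h', alpha_x_same, alpha_x_same, mul_inv_rev,
        Units.val_mul, Units.val_mul]
      simp only [mul_assoc]
    · rw [alpha_x_ne hc, alpha_x_ne hc, alpha_x_ne hc]
  exact DFunLike.congr_fun h1 a

theorem alpha_one (k : Fin 3) (a : FA K) : alpha k 1 a = a := by
  have h1 : alpha k 1 = AlgHom.id K (FA K) := by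
    apply hom_extA
    intro c
    rw [AlgHom.id_apply]
    by_cases hc : c = k
    · subst hc
      rw [alpha_x_same, inv_one, Units.val_one, one_mul, mul_one]
    · rw [alpha_x_ne hc]
  exact DFunLike.congr_fun h1 a

theorem theta_one (k l : Fin 3) : theta k l 1 = 1 := by
  refine LinearMap.ext fun m => funext fun j => ?_
  rw [theta_apply, Units.val_one, sub_self, mul_zero, smul_zero, add_zero, alpha_one]
  rfl

theorem ab_one : ∀ k l : Fin 3, k ≠ l → aco k l 0 * bco k 0 + aco k l 1 * bco k 1 = 1 := by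
  decide

theorem ab_zero : ∀ k m j : Fin 3, k ≠ m → k ≠ j → m ≠ j →
    aco k j 0 * bco m 0 + aco k j 1 * bco m 1 = 0 := by
  decide

theorem ba : ∀ k m j : Fin 3, k ≠ m → k ≠ j → m ≠ j → ∀ r s : Fin 2,
    bco m r * aco m j s + bco k r * aco k j s = if r = s then 1 else 0 := by
  decide

theorem third (k m j c : Fin 3) (h1 : k ≠ m) (h2 : k ≠ j) (h3 : m ≠ j) (h4 : ¬c = m)
    (h5 : ¬c = k) : c = j := by
  have a1 := k.isLt
  have a2 := m.isLt
  have a3 := j.isLt
  have a4 := c.isLt
  rw [ne_eq, Fin.ext_iff] at h1 h2 h3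
  rw [Fin.ext_iff] at h4 h5 ⊢
  omega

theorem theta_mul {k l : Fin 3} (hkl : k ≠ l) {u v : (FA K)ˣ} (h : alpha k u (v : FA K) = v)
    (h' : alpha k u ((v⁻¹ : (FA K)ˣ) : FA K) = ((v⁻¹ : (FA K)ˣ) : FA K)) :
    theta k l u * theta k l v = theta k l (v * u) := by
  refine LinearMap.ext fun m => funext fun j => ?_
  rw [Module.End.mul_apply]
  have e : ∀ i, alpha k u (theta k l v m i) = alpha k (v * u) (m i) +
      bco k i • ((aco k l 0 • alpha k (v * u) (m 0) + aco k l 1 • alpha k (v * u) (m 1)) *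
        ((v : FA K) - 1)) := by
    intro i
    rw [theta_apply, map_add, alpha_comp h h', map_zsmul, map_mul, map_add, map_zsmul, map_zsmul,
      alpha_comp h h', alpha_comp h h', map_sub, map_one, h]
  rw [theta_apply, e, e, e, theta_apply]
  generalize alpha k (v * u) (m 0) = A0
  generalize alpha k (v * u) (m 1) = A1
  generalize alpha k (v * u) (m j) = A
  have hS : aco k l 0 • (A0 + bco k 0 • ((aco k l 0 • A0 + aco k l 1 • A1) * ((v : FA K) - 1))) +
      aco k l 1 • (A1 + bco k 1 • ((aco k l 0 • A0 + aco k l 1 • A1) * ((v : FA K) - 1))) =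
      (aco k l 0 • A0 + aco k l 1 • A1) * (v : FA K) := by
    have h1 : aco k l 0 • (A0 + bco k 0 • ((aco k l 0 • A0 + aco k l 1 • A1) * ((v : FA K) - 1))) +
      aco k l 1 • (A1 + bco k 1 • ((aco k l 0 • A0 + aco k l 1 • A1) * ((v : FA K) - 1))) =
      (aco k l 0 • A0 + aco k l 1 • A1) + (aco k l 0 * bco k 0 + aco k l 1 * bco k 1) •
        ((aco k l 0 • A0 + aco k l 1 • A1) * ((v : FA K) - 1)) := by
      module
    rw [h1, ab_one k l hkl, one_smul, mul_sub, mul_one]
    abel
  rw [hS]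
  generalize aco k l 0 • A0 + aco k l 1 • A1 = S
  rw [add_assoc, ← smul_add]
  congr 2
  rw [Units.val_mul, mul_sub, mul_one, mul_sub, mul_one, mul_sub, mul_one, mul_assoc]
  abel

/-- the composition of the two conjugations by `y j` -/
theorem alpha_conj {k m j : Fin 3} (hkm : k ≠ m) (hkj : k ≠ j) (hmj : m ≠ j) (a : FA K) :
    alpha k (y j) (alpha m (y j) a) =
      ((y j : (FA K)ˣ) : FA K) * a * (((y j)⁻¹ : (FA K)ˣ) : FA K) := by
  refine indA K (p := fun a => alpha k (y j) (alpha m (y j) a) =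
      ((y j : (FA K)ˣ) : FA K) * a * (((y j)⁻¹ : (FA K)ˣ) : FA K)) ?_ ?_ ?_ ?_ a
  · intro r
    rw [AlgHom.commutes, AlgHom.commutes, ← Algebra.commutes, mul_assoc, Units.mul_inv, mul_one]
  · intro c
    by_cases hcm : c = m
    · subst hcm
      rw [alpha_x_same, map_mul, map_mul, alpha_y hkj.symm, alpha_yi hkj.symm,
        alpha_x_ne hkm.symm]
    · by_cases hck : c = k
      · subst hck
        rw [alpha_x_ne hcm, alpha_x_same]
      · have hcj : c = j := third k m j c hkm hkj hmj hcm hck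
        subst hcj
        rw [alpha_x_ne hcm, alpha_x_ne hck, conj_x]
  · intro a b ha hb
    rw [map_add, map_add, ha, hb, mul_add, add_mul]
  · intro a b ha hb
    rw [map_mul, map_mul, ha, hb]
    simp only [mul_assoc]
    rw [Units.inv_mul_cancel_left]

theorem theta_c {k m j : Fin 3} (hkm : k ≠ m) (hkj : k ≠ j) (hmj : m ≠ j) :
    theta k j (y j) * theta m j (y j) = lmul ((y j : (FA K)ˣ) : FA K) := by
  refine LinearMap.ext fun n => funext fun r => ?_
  rw [Module.End.mul_apply]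
  have e : ∀ i, alpha k (y j) (theta m j (y j) n i) =
      ((y j : (FA K)ˣ) : FA K) * n i * (((y j)⁻¹ : (FA K)ˣ) : FA K) +
      bco m i • ((aco m j 0 • (((y j : (FA K)ˣ) : FA K) * n 0 * (((y j)⁻¹ : (FA K)ˣ) : FA K)) +
        aco m j 1 • (((y j : (FA K)ˣ) : FA K) * n 1 * (((y j)⁻¹ : (FA K)ˣ) : FA K))) *
        (((y j : (FA K)ˣ) : FA K) - 1)) := by
    intro i
    rw [theta_apply, map_add, alpha_conj hkm hkj hmj, map_zsmul, map_mul, map_add, map_zsmul,
      map_zsmul, alpha_conj hkm hkj hmj, alpha_conj hkm hkj hmj, map_sub, map_one,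
      alpha_y hkj.symm]
  rw [theta_apply, e, e, e]
  have hr : lmul ((y j : (FA K)ˣ) : FA K) n r =
      ((y j : (FA K)ˣ) : FA K) * n r * (((y j)⁻¹ : (FA K)ˣ) : FA K) * ((y j : (FA K)ˣ) : FA K) := by
    rw [Units.inv_mul_cancel_right]
    rfl
  rw [hr]
  have hb := ba k m j hkm hkj hmj r
  obtain ⟨C, hC⟩ : ∃ C : Fin 2 → FA K, C = fun i =>
    ((y j : (FA K)ˣ) : FA K) * n i * (((y j)⁻¹ : (FA K)ˣ) : FA K) := ⟨_, rfl⟩
  have hC' : ∀ i, ((y j : (FA K)ˣ) : FA K) * n i * (((y j)⁻¹ : (FA K)ˣ) : FA K) = C i := by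
    intro i
    rw [hC]
  rw [hC', hC', hC']
  generalize ((y j : (FA K)ˣ) : FA K) = Y
  have hS : aco k j 0 • (C 0 + bco m 0 • ((aco m j 0 • C 0 + aco m j 1 • C 1) * (Y - 1))) +
      aco k j 1 • (C 1 + bco m 1 • ((aco m j 0 • C 0 + aco m j 1 • C 1) * (Y - 1))) =
      aco k j 0 • C 0 + aco k j 1 • C 1 := by
    have h1 : aco k j 0 • (C 0 + bco m 0 • ((aco m j 0 • C 0 + aco m j 1 • C 1) * (Y - 1))) +
      aco k j 1 • (C 1 + bco m 1 • ((aco m j 0 • C 0 + aco m j 1 • C 1) * (Y - 1))) =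
      (aco k j 0 • C 0 + aco k j 1 • C 1) + (aco k j 0 * bco m 0 + aco k j 1 * bco m 1) •
        ((aco m j 0 • C 0 + aco m j 1 • C 1) * (Y - 1)) := by
      module
    rw [h1, ab_zero k m j hkm hkj hmj, zero_smul, add_zero]
  rw [hS, add_assoc, ← smul_mul_assoc, ← smul_mul_assoc, ← add_mul]
  have hT : bco m r • (aco m j 0 • C 0 + aco m j 1 • C 1) +
      bco k r • (aco k j 0 • C 0 + aco k j 1 • C 1) = C r := by
    have h1 : bco m r • (aco m j 0 • C 0 + aco m j 1 • C 1) +
      bco k r • (aco k j 0 • C 0 + aco k j 1 • C 1) =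
      (bco m r * aco m j 0 + bco k r * aco k j 0) • C 0 +
        (bco m r * aco m j 1 + bco k r * aco k j 1) • C 1 := by
      module
    rw [h1, hb 0, hb 1]
    fin_cases r
    · simp
    · simp
  rw [hT, mul_sub, mul_one]
  abel

theorem theta_lmul {i k : Fin 3} (u : (FA K)ˣ) {a : FA K} (h : alpha i u a = a) :
    theta i k u * lmul a = lmul a * theta i k u := by
  refine LinearMap.ext fun m => funext fun r => ?_
  rw [Module.End.mul_apply, Module.End.mul_apply]
  change theta i k u (lmul a m) r = a * theta i k u m r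
  rw [theta_apply, theta_apply]
  have e : ∀ s, alpha i u (lmul a m s) = a * alpha i u (m s) := by
    intro s
    change alpha i u (a * m s) = a * alpha i u (m s)
    rw [map_mul, h]
  rw [e, e, e, mul_add, mul_smul_comm, ← mul_assoc, mul_add, mul_smul_comm, mul_smul_comm]

theorem theta_z {k l m : Fin 3} (hkl : k ≠ l) (hkm : k ≠ m) (hlm : l ≠ m) (u : (FA K)ˣ) :
    theta k l u (z K m) = z K m := by
  refine funext fun j => ?_
  rw [theta_apply]
  have e : ∀ s, alpha k u (z K m s) = z K m s := by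
    intro s
    change alpha k u ((bco m s : ℤ) : FA K) = ((bco m s : ℤ) : FA K)
    rw [map_intCast]
  rw [e, e, e]
  have h1 : aco k l 0 • z K m 0 + aco k l 1 • z K m 1 = 0 := by
    change aco k l 0 • ((bco m 0 : ℤ) : FA K) + aco k l 1 • ((bco m 1 : ℤ) : FA K) = 0
    rw [zsmul_eq_mul, zsmul_eq_mul, ← Int.cast_mul, ← Int.cast_mul, ← Int.cast_add,
      ab_zero k m l hkm hkl hlm.symm, Int.cast_zero]
  rw [h1, zero_mul, smul_zero, add_zero]

/-- the units -/
def th (k l : Fin 3) : (Module.End K (M K))ˣ :=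
  if h : k = l then 1 else
    ⟨theta k l (y l), theta k l (y l)⁻¹, by
      rw [theta_mul h (alpha_yi (Ne.symm h) _) (by
        rw [inv_inv]
        exact alpha_y (Ne.symm h) _), inv_mul_cancel, theta_one], by
      rw [theta_mul h (alpha_y (Ne.symm h) _) (alpha_yi (Ne.symm h) _), mul_inv_cancel,
        theta_one]⟩

theorem th_val {k l : Fin 3} (h : k ≠ l) :
    ((th k l : (Module.End K (M K))ˣ) : Module.End K (M K)) = theta k l (y l) := by
  unfold th
  rw [dif_neg h]

/-- see above -/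
theorem theta_rel : S_theta := by
  refine ⟨th, fun k l h => th_val h, ?_, ?_, ?_⟩
  · intro k m j hkm hkj hmj
    apply Units.ext
    rw [Units.val_mul, Units.val_mul, th_val hkj, th_val hmj, theta_c hkm hkj hmj,
      theta_c hkm.symm hmj hkj]
  · intro i j k hij hik hjk
    have h1 : ((th i j * th k j : (Module.End K (M K))ˣ) : Module.End K (M K)) =
        lmul ((y j : (FA K)ˣ) : FA K) := by
      rw [Units.val_mul, th_val hij, th_val hjk.symm, theta_c hik hij hjk.symm]
    apply Units.ext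
    rw [Units.val_mul, Units.val_mul (th i k), h1, th_val hik]
    exact (theta_lmul (y k) (alpha_y hij.symm (y k))).symm
  · intro k l m hkl hkm hlm
    rw [th_val hkl]
    exact theta_z hkl hkm hlm (y l)

end Pool.Agent.H927.QP.Part_theta

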